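import Pool.Statements.S02896
import Pool.Agent.N78.CE.Main

set_option autoImplicit false
open Pool Pool.MP_bcc336_al

namespace Pool.Agent.S02896

/-- The negation of the preceding statement: Every CAT(0) cube complex (as a median graph) with a proper cocompact cubical group action embeds as a convex subcomplex of the universal cover of the Salvetti complex of some RAAG on a finite graph, i.e. convexly into the RAAG's standard Cayley graph. -/
theorem result :
    ¬ (∀ (V : Type) (G : SimpleGraph V) (H : Type) [Group H] [MulAction H V],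
    G.Connected →
    (∀ x y z : V, ∃! m : V,
        G.dist x m + G.dist m y = G.dist x y ∧
        G.dist y m + G.dist m z = G.dist y z ∧
        G.dist x m + G.dist m z = G.dist x z) →
    (∀ v : V, (G.neighborSet v).Finite) →
    (∀ (h : H) (x y : V), G.Adj (h • x) (h • y) ↔ G.Adj x y) →
    (∀ v : V, (MulAction.stabilizer H v : Set H).Finite) →
    Finite (MulAction.orbitRel.Quotient H V) →
    ∃ (n : ℕ) (Γ : SimpleGraph (Fin n)) (R : Set (FreeGroup (Fin n))),
      R = {r | ∃ i j : Fin n, Γ.Adj i j ∧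
        r = FreeGroup.of i * FreeGroup.of j * (FreeGroup.of i)⁻¹ * (FreeGroup.of j)⁻¹} ∧
      ∃ (C : SimpleGraph (PresentedGroup R)),
        (∀ g h : PresentedGroup R, C.Adj g h ↔
          (g ≠ h ∧ ∃ i : Fin n, h = g * PresentedGroup.of i ∨ g = h * PresentedGroup.of i)) ∧
        ∃ f : G ↪g C,
          ∀ a b c : PresentedGroup R, a ∈ Set.range f → b ∈ Set.range f →
            C.dist a c + C.dist c b = C.dist a b → c ∈ Set.range f) := by
  intro h
  classical
  have h1 := h Pool.Agent.N78.CE.S.Vx Pool.Agent.N78.CE.S.Cay Pool.Agent.N78.CE.S.Grp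
    Pool.Agent.W387.SqSys.cay_connected ?_ ?_ ?_ ?_ ?_
  · obtain ⟨n, Γ, R, rfl, C, hC, f, hconv⟩ := h1
    exact Pool.Agent.N78.CE.Emb.absurd' (Γ := Γ) (C := C) ⟨hC, f, hconv⟩
  · intro x y z
    simp only [Pool.Agent.W387.SqSys.cay_dist]
    obtain ⟨m, hm, hm2⟩ := Pool.Agent.W387.SqSys.medD.existsUnique x.g y.g z.g
    exact ⟨⟨m⟩, hm, fun m' hm' => Pool.Agent.W387.SqSys.Vx.ext (hm2 m'.g hm')⟩
  · intro v
    apply Set.Finite.subset (Set.finite_range (fun a =>
      (⟨Pool.Agent.N78.CE.S.gn a * v.g⟩ : Pool.Agent.N78.CE.S.Vx)))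
    rintro w ⟨a, h⟩
    exact ⟨a, Pool.Agent.W387.SqSys.Vx.ext h.symm⟩
  · intro g x y
    have key : ∀ (g : Pool.Agent.N78.CE.S.Grp) (u v : Pool.Agent.N78.CE.S.Vx),
        Pool.Agent.N78.CE.S.Cay.Adj u v → Pool.Agent.N78.CE.S.Cay.Adj (g • u) (g • v) := by
      rintro g u v ⟨a, h⟩
      refine ⟨a, ?_⟩
      rw [Pool.Agent.W387.SqSys.smul_def, Pool.Agent.W387.SqSys.smul_def, h, mul_assoc]
    refine ⟨fun h => ?_, key g x y⟩
    have := key g⁻¹ _ _ h
    rwa [inv_smul_smul, inv_smul_smul] at this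
  · intro v
    apply Set.Finite.subset (Set.finite_singleton (1 : Pool.Agent.N78.CE.S.Grp))
    intro g hg
    have h1 : g • v = v := hg
    rw [Pool.Agent.W387.SqSys.smul_def] at h1
    have h2 : v.g * g⁻¹ = v.g := congrArg Pool.Agent.W387.SqSys.Vx.g h1
    have h3 : g = 1 := by simpa using h2
    exact h3
  · have htrans : ∀ q : MulAction.orbitRel.Quotient Pool.Agent.N78.CE.S.Grp
        Pool.Agent.N78.CE.S.Vx,
        q = Quotient.mk _ (⟨1⟩ : Pool.Agent.N78.CE.S.Vx) := by
      intro q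
      induction q using Quotient.inductionOn with
      | h v =>
      apply Quotient.sound
      refine ⟨v.g⁻¹, ?_⟩
      show v.g⁻¹ • (⟨1⟩ : Pool.Agent.N78.CE.S.Vx) = v
      rw [Pool.Agent.W387.SqSys.smul_def]
      simp
    have : Subsingleton (MulAction.orbitRel.Quotient Pool.Agent.N78.CE.S.Grp
        Pool.Agent.N78.CE.S.Vx) := ⟨fun a b => (htrans a).trans (htrans b).symm⟩
    infer_instance

end Pool.Agent.S02896
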